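import Mathlib
import Pool.Agent.MP_8eb1e4_pr.H39.Reduce

/-!
# No exceptional projections of the zero set of the Brownian sheet

For `d ∈ {2, 3}` and the two-parameter `d`-dimensional Brownian sheet `B`, almost surely every
orthogonal projection of the zero set `Z = B⁻¹{0} ∩ (0,∞)²` onto a line has Hausdorff dimension
`2 - d/2`, simultaneously for all directions.
-/

open MeasureTheory ProbabilityTheory Set
open scoped NNReal ENNReal

namespace Pool.Agent.Results.MP_8eb1e4_pr.AllProjections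

open Pool.Agent.MP_8eb1e4_pr.H39

/-- `B : [0,∞)² → ℝ^d` is a Brownian sheet: each coordinate is a centred Gaussian process with
covariance `min(s,s') min(t,t')`, the coordinate processes are independent, and the paths are
(almost surely) continuous. Then almost surely, for every direction `θ ∈ [0, π)`, the projection
`x ↦ x · (cos θ, sin θ)` of the zero set in the open quadrant has Hausdorff dimension
`2 - d/2`. -/
theorem result (d : ℕ) (hd : d = 2 ∨ d = 3) {Ω : Type*} [MeasurableSpace Ω] (P : Measure Ω)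
    [IsProbabilityMeasure P] (B : ℝ≥0 × ℝ≥0 → Ω → EuclideanSpace ℝ (Fin d))
    (hgauss : ∀ i, IsGaussianProcess (fun x ω => B x ω i) P)
    (hmean : ∀ i x, ∫ ω, B x ω i ∂P = 0)
    (hcov : ∀ i x y, ∫ ω, B x ω i * B y ω i ∂P =
      min (x.1 : ℝ) (y.1 : ℝ) * min (x.2 : ℝ) (y.2 : ℝ))
    (hind : iIndepFun (fun i ω x => B x ω i) P)
    (hcont : ∀ᵐ ω ∂P, Continuous fun x => B x ω) :
    ∀ᵐ ω ∂P, ∀ θ ∈ Ico (0 : ℝ) Real.pi,
      dimH ((fun x : ℝ≥0 × ℝ≥0 => (x.1 : ℝ) * Real.cos θ + (x.2 : ℝ) * Real.sin θ) ''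
        {x | 0 < x.1 ∧ 0 < x.2 ∧ B x ω = 0}) = ENNReal.ofReal (2 - (d : ℝ) / 2) := by
  obtain ⟨X, hX, hXB⟩ := exists_sheet (P := P) (fun x ω i => B x ω i) hgauss hmean hcov hind
    (by
      filter_upwards [hcont] with ω hω i
      exact (EuclideanSpace.proj (𝕜 := ℝ) i).continuous.comp hω)
  filter_upwards [hX.all_proj hd, hXB] with ω h1 h2 θ _
  rw [← h1 θ]
  congr 1
  ext z
  constructor
  · rintro ⟨x, ⟨a1, a2, a3⟩, rfl⟩
    refine ⟨((x.1 : ℝ), (x.2 : ℝ)), ⟨a1, a2, fun i => ?_⟩, rfl⟩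
    rw [h2]
    simp [a3]
  · rintro ⟨x, ⟨a1, a2, a3⟩, rfl⟩
    refine ⟨(x.1.toNNReal, x.2.toNNReal), ⟨Real.toNNReal_pos.2 a1, Real.toNNReal_pos.2 a2, ?_⟩, ?_⟩
    · ext i
      rw [← h2, a3]
      rfl
    · simp only [Real.coe_toNNReal _ a1.le, Real.coe_toNNReal _ a2.le]

end Pool.Agent.Results.MP_8eb1e4_pr.AllProjections
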